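import Pool.Agent.Helper40.IZ.Stmts

/-!
Moebius disjointness of isometric extensions: module FXC (the theorem for continuous functions).
-/

open Finset Filter MeasureTheory Topology
open scoped ComplexConjugate InnerProductSpace

namespace Pool.Agent.Helper40.IZ

open Pool.Agent.Helper16.AZ (T E Op mm)
open Pool.Agent.Helper16.BZ (co ff EQ)
open Pool.Agent.Helper16.MD (MS)
open Pool.Agent.Helper40.DZ (RI UR Good3 ZEnt)
open Pool.Agent.Helper40.IZP (IsoExt FibreCts)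

theorem fxc_MS (f g : ℕ → ℂ) (R : ℝ) (h : ∀ n, ‖f n - g n‖ ≤ R) (N : ℕ) :
    ‖MS f N - MS g N‖ ≤ N * R := by
  show ‖(∑ n ∈ Icc 1 N, ((ArithmeticFunction.moebius n : ℤ) : ℂ) * f n) -
    ∑ n ∈ Icc 1 N, ((ArithmeticFunction.moebius n : ℤ) : ℂ) * g n‖ ≤ _
  rw [← Finset.sum_sub_distrib]
  have : ∀ n ∈ Icc 1 N, ‖((ArithmeticFunction.moebius n : ℤ) : ℂ) * f n -
      ((ArithmeticFunction.moebius n : ℤ) : ℂ) * g n‖ ≤ R := by
    intro n _
    rw [← mul_sub, norm_mul]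
    have h1 : ‖((ArithmeticFunction.moebius n : ℤ) : ℂ)‖ ≤ 1 := by
      rw [Complex.norm_intCast]
      exact_mod_cast ArithmeticFunction.abs_moebius_le_one
    calc ‖((ArithmeticFunction.moebius n : ℤ) : ℂ)‖ * ‖f n - g n‖
        ≤ 1 * ‖f n - g n‖ := mul_le_mul_of_nonneg_right h1 (norm_nonneg _)
      _ ≤ R := by rw [one_mul]; exact h n
  refine (norm_sum_le_of_le _ this).trans_eq ?_
  rw [Finset.sum_const, Nat.card_Icc, Nat.add_sub_cancel, nsmul_eq_mul]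

theorem fxc_conj (f : ℕ → ℂ) (N : ℕ) :
    MS (fun n => conj (f n)) N / (N : ℂ) = conj (MS f N / (N : ℂ)) := by
  rw [map_div₀, Complex.conj_natCast]
  congr 1
  show ∑ n ∈ Icc 1 N, ((ArithmeticFunction.moebius n : ℤ) : ℂ) * conj (f n) =
    conj (∑ n ∈ Icc 1 N, ((ArithmeticFunction.moebius n : ℤ) : ℂ) * f n)
  rw [map_sum]
  refine Finset.sum_congr rfl fun n _ => ?_
  rw [map_mul, map_intCast]

/-- sequences which are uniformly near sequences with mean zero -/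
theorem fxc_lim (f : ℕ → ℂ) (h : ∀ ε : ℝ, 0 < ε → ∃ g : ℕ → ℂ, (∀ n, ‖f n - g n‖ ≤ ε) ∧
    Tendsto (fun N : ℕ => MS g N / (N : ℂ)) atTop (𝓝 0)) :
    Tendsto (fun N : ℕ => MS f N / (N : ℂ)) atTop (𝓝 0) := by
  rw [Metric.tendsto_atTop]
  intro ε hε
  obtain ⟨g, h1, h2⟩ := h (ε / 2) (by linarith)
  rw [Metric.tendsto_atTop] at h2
  obtain ⟨N₁, hN₁⟩ := h2 (ε / 2) (by linarith)
  refine ⟨max N₁ 1, fun N hN => ?_⟩
  have hN1 : N₁ ≤ N := (le_max_left _ _).trans hN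
  have hN3 : 1 ≤ N := (le_max_right _ _).trans hN
  have hNp : (0 : ℝ) < N := by exact_mod_cast hN3
  have h6 := hN₁ N hN1
  rw [dist_zero_right] at h6 ⊢
  have h8 := fxc_MS f g (ε / 2) h1 N
  have h9 : ‖(MS f N - MS g N) / (N : ℂ)‖ ≤ ε / 2 := by
    rw [norm_div, Complex.norm_natCast, div_le_iff₀ hNp]
    linarith
  have h11 : MS f N / (N : ℂ) = (MS f N - MS g N) / (N : ℂ) + MS g N / (N : ℂ) := by
    rw [← add_div, sub_add_cancel]
  rw [h11]
  calc _ ≤ _ + _ := norm_add_le _ _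
    _ < ε := by linarith

theorem fxc_iter {X : Type} [MetricSpace X] {r : ℕ} {π : X → T r} {S : T r → T r} {τ : X → X}
    {M : Type} [MetricSpace M] {Θ : T r → Set C(M, X)} (h : Mod π S τ M Θ) (n : ℕ) :
    ∀ y, ∀ θ ∈ Θ y, ∃ θ' ∈ Θ (S^[n] y), ∀ m, θ' m = τ^[n] (θ m) := by
  induction n with
  | zero => intro y θ hθ; exact ⟨θ, hθ, fun _ => rfl⟩
  | succ n ih =>
    intro y θ hθ
    obtain ⟨θ₁, h1, h2⟩ := ih y θ hθ
    obtain ⟨θ₂, h3, h4⟩ := h.2.2.2.2.1 _ θ₁ h1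
    refine ⟨θ₂, ?_, fun m => ?_⟩
    · rw [Function.iterate_succ_apply']
      exact h3
    · rw [h4, h2, Function.iterate_succ_apply']

theorem st_FXC : ST_MOD → ST_HMS → ST_FDE → ST_CYC → ST_GRI → ST_FXC := by
  intro hMOD hHMS hFDE hCYC hGRI X _ _ r π S τ ρ hI hG hE hSc hSm hF F x
  obtain ⟨M, _, _, Θ, hne, hMod⟩ := hMOD X r π S τ ρ x hI hE
  let _ : MeasurableSpace M := borel M
  have : BorelSpace M := ⟨rfl⟩
  obtain ⟨μ, hμ, hpos, hinv⟩ := hHMS M
  -- the compact set of functions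
  set K : Set C(M, ℂ) := (fun p : T r × C(M, X) => F.comp p.2) ''
    {p : T r × C(M, X) | p.2 ∈ Θ p.1} with hK
  have hKc : IsCompact K := by
    refine hMod.2.2.2.2.2.image ?_
    exact (ContinuousMap.continuous_postcomp F).comp continuous_snd
  -- the point
  obtain ⟨θ, hθ⟩ := hMod.1 (π x)
  obtain ⟨m₀, hm₀⟩ := ((hMod.2.1 _ θ hθ).2 x).mp rfl
  apply fxc_lim
  intro ε hε
  obtain ⟨d, e, w, hFr, happ⟩ := hFDE M μ hpos hinv K hKc ε hε
  obtain ⟨φ, hφ, hCY⟩ := hCYC X r π S τ M μ Θ d e hMod hFr hSc hSm hF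
  obtain ⟨f, hf, hU⟩ := hCY F
  obtain ⟨U, hUu, hUn⟩ := hU (π x) θ hθ
  refine ⟨fun n => conj (ff S φ f ((star U) (w m₀)) (π x) n), ?_, ?_⟩
  · intro n
    obtain ⟨θ', h1, h2⟩ := fxc_iter hMod n (π x) θ hθ
    have h3 := happ (F.comp θ') ⟨(S^[n] (π x), θ'), h1, rfl⟩ m₀
    have h4 : (fun m => (F.comp θ') m) = fun m => F (τ^[n] (θ m)) := by
      funext m
      rw [ContinuousMap.comp_apply, h2]
    have h5 : (F.comp θ') m₀ = F (τ^[n] x) := by
      rw [ContinuousMap.comp_apply, h2, hm₀]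
    have h6 : inner ℂ (w m₀) (cf μ e (F.comp θ')) =
        conj (ff S φ f ((star U) (w m₀)) (π x) n) := by
      have h7 : cf μ e (F.comp θ') = U (star (co S φ n (π x)) (f (S^[n] (π x)))) := by
        rw [← hUn n, ← h4]
      rw [h7]
      unfold ff
      rw [inner_conj_symm]
      rw [ContinuousLinearMap.star_eq_adjoint, ContinuousLinearMap.star_eq_adjoint,
        ← ContinuousLinearMap.adjoint_inner_left, ContinuousLinearMap.adjoint_inner_right]
    rw [h5, h6] at h3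
    exact h3
  · have h1 := hGRI r S hG hE d φ f ((star U) (w m₀)) (π x) hφ hf
    have h2 : (fun N : ℕ => MS (fun n => conj (ff S φ f ((star U) (w m₀)) (π x) n)) N / (N : ℂ)) =
        fun N : ℕ => conj (MS (ff S φ f ((star U) (w m₀)) (π x)) N / (N : ℂ)) := by
      funext N
      rw [← fxc_conj]
    rw [h2]
    have h3 := (Complex.continuous_conj.tendsto 0).comp h1
    rw [map_zero] at h3
    exact h3

end Pool.Agent.Helper40.IZ
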