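import Pool.Agent.Helper93.IZ.FXC
import Pool.Agent.Helper96.DZ.XRI

/-!
Moebius disjointness of isometric extensions: module FXR (functions which are continuous at almost
all fibres).
-/

open Finset Filter MeasureTheory Topology
open scoped ComplexConjugate InnerProductSpace

namespace Pool.Agent.Helper40.IZ

open Pool.Agent.Helper16.AZ (T E Op mm)
open Pool.Agent.Helper16.BZ (co ff EQ)
open Pool.Agent.Helper16.MD (MS)
open Pool.Agent.Helper40.DZ (RI UR Good3 ZEnt xri_MS xri_avg)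
open Pool.Agent.Helper40.IZP (IsoExt FibreCts)

theorem fxr_pi {X : Type} {r : ℕ} {π : X → T r} {S : T r → T r} {τ : X → X}
    (h : ∀ x, π (τ x) = S (π x)) (n : ℕ) (x : X) : π (τ^[n] x) = S^[n] (π x) := by
  induction n generalizing x with
  | zero => rfl
  | succ n ih => rw [Function.iterate_succ_apply, Function.iterate_succ_apply, ih, h]

theorem st_FXR : ST_FXC → ST_RXS → ST_FXR := by
  intro hX hR X _ _ r π S τ ρ hI hG hE hSc hSm hτ F C hC hF x
  rw [Metric.tendsto_atTop]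
  intro ε hε
  obtain ⟨F₀, R, h1, h3⟩ := hR X r π F C hI.1 hC hF (ε / 4) (by linarith)
  have h4 := hX X r π S τ ρ hI hG hE hSc hSm hτ F₀ x
  rw [Metric.tendsto_atTop] at h4
  obtain ⟨N₁, hN₁⟩ := h4 (ε / 4) (by linarith)
  have h5 := xri_avg hE R (π x)
  rw [Metric.tendsto_atTop] at h5
  obtain ⟨N₂, hN₂⟩ := h5 (ε / 4) (by linarith)
  refine ⟨max (max N₁ N₂) 1, fun N hN => ?_⟩
  have hN1 : N₁ ≤ N := (le_max_left _ _).trans ((le_max_left _ _).trans hN)
  have hN2 : N₂ ≤ N := (le_max_right _ _).trans ((le_max_left _ _).trans hN)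
  have hN3 : 1 ≤ N := (le_max_right _ _).trans hN
  have hNp : (0 : ℝ) < N := by exact_mod_cast hN3
  have h6 := hN₁ N hN1
  have h7 := hN₂ N hN2
  rw [dist_zero_right] at h6 ⊢
  rw [Real.dist_eq] at h7
  have h8 := xri_MS (fun n => F (τ^[n] x)) (fun n => F₀ (τ^[n] x)) (fun n => R (S^[n] (π x)))
    (fun n => by
      have h := h1 (τ^[n] x)
      exact h.trans_eq (by rw [fxr_pi hI.2.1])) N
  have h9 : ‖(MS (fun n => F (τ^[n] x)) N - MS (fun n => F₀ (τ^[n] x)) N) / (N : ℂ)‖ ≤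
      (∑ n ∈ Icc 1 N, R (S^[n] (π x))) / (N : ℝ) := by
    rw [norm_div, Complex.norm_natCast]
    exact div_le_div_of_nonneg_right h8 hNp.le
  have h10 : (∑ n ∈ Icc 1 N, R (S^[n] (π x))) / (N : ℝ) < ε / 2 := by
    have := (abs_lt.mp h7).2
    linarith
  have h11 : MS (fun n => F (τ^[n] x)) N / (N : ℂ) =
      (MS (fun n => F (τ^[n] x)) N - MS (fun n => F₀ (τ^[n] x)) N) / (N : ℂ) +
      MS (fun n => F₀ (τ^[n] x)) N / (N : ℂ) := by
    rw [← add_div, sub_add_cancel]
  rw [h11]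
  calc _ ≤ _ + _ := norm_add_le _ _
    _ < ε := by linarith

end Pool.Agent.Helper40.IZ
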